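import Pool.Agent.R352.E.Cnt

/-!
# The matroid of algebraic independence over a field of real numbers
-/

set_option autoImplicit false

open Set

namespace Pool.Agent.V5helper44.SimMat

open Pool.Agent.R352.E

/-- the matroid of algebraic independence over `F` -/
noncomputable abbrev MtF (F : Subfield ℝ) : Matroid ℝ := AlgebraicIndependent.matroid F ℝ

lemma alg_iff_of_eq {F : Subfield ℝ} (A : IntermediateField ℚ ℝ) (B : IntermediateField F ℝ)
    (h : ∀ z : ℝ, z ∈ A ↔ z ∈ B) (x : ℝ) : IsAlgebraic A x ↔ IsAlgebraic B x := by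
  let f : A ≃+* B :=
    { toFun := fun z => ⟨z, (h z).1 z.2⟩
      invFun := fun z => ⟨z, (h z).2 z.2⟩
      left_inv := fun z => rfl
      right_inv := fun z => rfl
      map_mul' := fun _ _ => rfl
      map_add' := fun _ _ => rfl }
  exact (isAlgebraic_ringHom_iff_of_comp_eq f (RingHom.id ℝ) Function.injective_id (by ext z; rfl)
    (a := x)).symm

lemma adjoin_iff {F : Subfield ℝ} (S : Set ℝ) (z : ℝ) :
    z ∈ IntermediateField.adjoin ℚ ((F : Set ℝ) ∪ S) ↔ z ∈ IntermediateField.adjoin F S := by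
  have h1 : z ∈ IntermediateField.adjoin ℚ ((F : Set ℝ) ∪ S) ↔
      z ∈ Subfield.closure (range (algebraMap ℚ ℝ) ∪ ((F : Set ℝ) ∪ S)) := Iff.rfl
  have h2 : z ∈ IntermediateField.adjoin F S ↔
      z ∈ Subfield.closure (range (algebraMap F ℝ) ∪ S) := Iff.rfl
  have h3 : Subfield.closure (range (algebraMap ℚ ℝ) ∪ ((F : Set ℝ) ∪ S)) =
      Subfield.closure (range (algebraMap F ℝ) ∪ S) := by
    apply le_antisymm
    · rw [Subfield.closure_le]
      rintro y (⟨q, rfl⟩ | hy | hy)
      · exact (SubfieldClass.ratCast_mem _ q)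
      · exact Subfield.subset_closure (Or.inl ⟨⟨y, hy⟩, rfl⟩)
      · exact Subfield.subset_closure (Or.inr hy)
    · rw [Subfield.closure_le]
      rintro y (⟨q, rfl⟩ | hy)
      · exact Subfield.subset_closure (Or.inr (Or.inl q.2))
      · exact Subfield.subset_closure (Or.inr (Or.inr hy))
  rw [h1, h2, h3]

lemma mem_cF_iff {F : Subfield ℝ} {S : Set ℝ} {x : ℝ} :
    x ∈ clF ((F : Set ℝ) ∪ S) ↔ IsAlgebraic (IntermediateField.adjoin F S) x := by
  rw [mem_clF]
  exact alg_iff_of_eq _ _ (adjoin_iff S) x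

open scoped IntermediateField.algebraAdjoinAdjoin in
lemma mem_MtF {F : Subfield ℝ} {S : Set ℝ} {x : ℝ} :
    x ∈ (MtF F).closure S ↔ x ∈ clF ((F : Set ℝ) ∪ S) := by
  rw [mem_cF_iff, AlgebraicIndependent.matroid_closure_eq]
  exact IsFractionRing.isAlgebraic_iff (Algebra.adjoin F S) (IntermediateField.adjoin F S) ℝ

lemma card_leF {F : Subfield ℝ} {ι : Type*} [Fintype ι] {x : ι → ℝ} (hx : AlgebraicIndependent F x) {T : Set ℝ}
    (h : ∀ i, x i ∈ clF ((F : Set ℝ) ∪ T)) : (Fintype.card ι : ℕ∞) ≤ (MtF F).eRk T := by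
  have h1 : (MtF F).Indep (range x) := hx.to_subtype_range
  have h2 : range x ⊆ (MtF F).closure T := by
    rintro _ ⟨i, rfl⟩
    exact mem_MtF.2 (h i)
  calc (Fintype.card ι : ℕ∞) = (range x).encard := by
        rw [← image_univ, hx.injective.injOn.encard_image, encard_univ, ENat.card_eq_coe_fintype_card]
    _ ≤ (MtF F).eRk ((MtF F).closure T) := h1.encard_le_eRk_of_subset h2
    _ = (MtF F).eRk T := Matroid.eRk_closure_eq (MtF F) T

/-- as many elements spanning independent elements are independent -/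
lemma indep_of_spanF {F : Subfield ℝ} {ι κ : Type*} [Fintype ι] [Fintype κ] {x : ι → ℝ}
    (hx : AlgebraicIndependent F x) {y : κ → ℝ}
    (h : ∀ i, x i ∈ clF ((F : Set ℝ) ∪ range y)) (hc : Fintype.card κ ≤ Fintype.card ι) :
    AlgebraicIndependent F y := by
  have h1 := card_leF hx h
  have h2 : (range y).encard ≤ Fintype.card κ := by
    rw [← image_univ, ← ENat.card_eq_coe_fintype_card, ← encard_univ]
    exact encard_image_le _ _
  have h3 : (Fintype.card κ : ℕ∞) ≤ (range y).encard :=
    (by exact_mod_cast hc : (Fintype.card κ : ℕ∞) ≤ Fintype.card ι).trans (h1.trans (Matroid.eRk_le_encard _ _))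
  have hfin : (range y).Finite := finite_range y
  have h4 : (MtF F).Indep (range y) := by
    refine ((MtF F).isRkFinite_of_finite hfin).indep_of_encard_le_eRk ?_
    exact h2.trans ((by exact_mod_cast hc : (Fintype.card κ : ℕ∞) ≤ Fintype.card ι).trans h1)
  have hinj : Function.Injective y := by
    rw [← injOn_univ]
    refine Finite.injOn_of_encard_image_eq finite_univ ?_
    rw [image_univ]
    refine le_antisymm (h2.trans ?_) ?_
    · rw [encard_univ, ENat.card_eq_coe_fintype_card]
    · rw [encard_univ, ENat.card_eq_coe_fintype_card]; exact h3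
  exact (algebraicIndependent_subtype_range hinj).1 h4

/-- a lower bound for the transcendence degree of a generated field -/
lemma trdeg_geF {F : Subfield ℝ} {ι : Type*} [Fintype ι] {x : ι → ℝ} (hx : AlgebraicIndependent F x) {A : Set ℝ}
    (h : ∀ i, x i ∈ clF ((F : Set ℝ) ∪ A)) :
    (Fintype.card ι : Cardinal) ≤ Algebra.trdeg F (IntermediateField.adjoin F A) := by
  obtain ⟨I, hI⟩ := (MtF F).exists_isBasis A (subset_univ _)
  have h1 := card_leF hx h
  rw [← hI.encard_eq_eRk] at h1
  obtain ⟨t, htI, htc⟩ := exists_subset_encard_eq h1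
  have hfin : t.Finite := by
    rw [← encard_lt_top_iff, htc]
    exact ENat.natCast_lt_top _
  have hind : AlgebraicIndependent F (fun i : t => (i : ℝ)) := hI.indep.subset htI
  have htA : ∀ i : t, (i : ℝ) ∈ IntermediateField.adjoin F A := fun i =>
    IntermediateField.subset_adjoin F A (hI.subset (htI i.2))
  let f : t → IntermediateField.adjoin F A := fun i => ⟨i, htA i⟩
  have hf : AlgebraicIndependent F f := by
    have h1 : Function.Injective (IntermediateField.adjoin F A).val := (IntermediateField.adjoin F A).val.injective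
    exact ((IntermediateField.adjoin F A).val.algebraicIndependent_iff h1).1 hind
  have := hfin.fintype
  have h2 := hf.cardinalMk_le_trdeg
  refine le_trans (le_of_eq ?_) h2
  have h3 : ((Fintype.card ι : ℕ) : ℕ∞) = ((Fintype.card t : ℕ) : ℕ∞) := by
    rw [← htc, ← ENat.card_eq_coe_fintype_card, Set.encard]
  have h4 : Fintype.card ι = Fintype.card t := by exact_mod_cast h3
  rw [Cardinal.mk_fintype, h4]

/-- counting -/
lemma count_genF {F : Subfield ℝ} {ι κ : Type*} [Fintype ι] [Fintype κ] {x : ι → ℝ}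
    (hx : AlgebraicIndependent F x) {y : κ → ℝ} {a : ℝ}
    (S : Finset κ) (hS : ∀ k ∈ S, y k ∈ clF ((F : Set ℝ) ∪ {a}))
    (h : ∀ i, x i ∈ clF ((F : Set ℝ) ∪ ({a} ∪ range y))) :
    Fintype.card ι + S.card ≤ 1 + Fintype.card κ := by
  classical
  have h1 : clF ((F : Set ℝ) ∪ ({a} ∪ range y)) ≤ clF ((F : Set ℝ) ∪ ({a} ∪ y '' (Sᶜ : Finset κ))) := by
    refine clF_le ?_
    rintro z (hz | hz | ⟨k, rfl⟩)
    · exact subset_clF _ (Or.inl hz)
    · exact subset_clF _ (Or.inr (Or.inl hz))
    · by_cases hk : k ∈ S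
      · exact clF_mono (union_subset_union_right _ subset_union_left) (hS k hk)
      · refine subset_clF _ (Or.inr (Or.inr ⟨k, ?_, rfl⟩))
        simpa using hk
  have h2 := card_leF hx (fun i => h1 (h i))
  have h3 : ({a} ∪ y '' (Sᶜ : Finset κ) : Set ℝ).encard ≤ ((1 + (Sᶜ : Finset κ).card : ℕ) : ℕ∞) := by
    refine (encard_union_le _ _).trans ?_
    rw [encard_singleton]
    have e : (((Sᶜ : Finset κ) : Set κ)).encard = ((Sᶜ : Finset κ).card : ℕ∞) := encard_coe_eq_coe_finsetCard _
    rw [Nat.cast_add, Nat.cast_one, ← e]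
    exact add_le_add le_rfl (encard_image_le _ _)
  have h4 : (Fintype.card ι : ℕ∞) ≤ ((1 + (Sᶜ : Finset κ).card : ℕ) : ℕ∞) := h2.trans ((Matroid.eRk_le_encard _ _).trans h3)
  have h5 : Fintype.card ι ≤ 1 + (Sᶜ : Finset κ).card := by exact_mod_cast h4
  rw [Finset.card_compl] at h5
  have h6 := Finset.card_le_univ S
  omega

end Pool.Agent.V5helper44.SimMat
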