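import Pool.Agent.V5helper44.SimAI
import Pool.Agent.V5helper44.SimMat
import Pool.Agent.R352.Q.Ind

/-!
# Values of E-functions over simultaneously Liouville fields
-/

set_option autoImplicit false

open Set

namespace Pool.Agent.V5helper44.SimZk

open Pool.Agent.R352.E Pool.Agent.R352.Q Pool.Agent.Q163.LE Pool.Agent.N743.SS
open Pool.Agent.V5helper44.SimAI Pool.Agent.V5helper44.SimMat

variable {F : Subfield ℝ}

lemma EE_alg_finF (hF : SimLiouville F) (J : ℕ) {k : ℕ} (x : Fin k → ℚ) (hinj : Function.Injective x)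
    (hpos : ∀ i, 0 < x i) :
    AlgebraicIndependent F (fun o : Option (Fin J × Fin k) => o.elim (Real.exp 1) (fun p => EE (p.1 + 1) (x p.2))) := by
  set q : ℕ := ∏ i, (x i).den with hqd
  have hq : 1 ≤ q := Nat.one_le_iff_ne_zero.2 (Finset.prod_ne_zero_iff.2 fun i _ => (x i).den_ne_zero)
  have hq' : (q : ℝ) ≠ 0 := by positivity
  have hm : ∀ i, ∃ m : ℕ, 1 ≤ m ∧ (m : ℝ) / q = x i := by
    intro i
    obtain ⟨c, hc⟩ := Finset.dvd_prod_of_mem (fun i => (x i).den) (Finset.mem_univ i)
    have hc' : q = (x i).den * c := hc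
    have hnum : 0 < (x i).num := Rat.num_pos.2 (hpos i)
    have hc0 : c ≠ 0 := by
      rintro rfl
      rw [mul_zero] at hc'
      omega
    refine ⟨(x i).num.toNat * c, ?_, ?_⟩
    · have h1 : 1 ≤ (x i).num.toNat := by omega
      exact Nat.one_le_iff_ne_zero.2 (Nat.mul_ne_zero (by omega) hc0)
    · have h2 : (((x i).num.toNat : ℕ) : ℝ) = ((x i).num : ℝ) := by
        have : (((x i).num.toNat : ℕ) : ℤ) = (x i).num := Int.toNat_of_nonneg hnum.le
        exact_mod_cast this
      have h3 : ((x i : ℚ) : ℝ) = ((x i).num : ℝ) / ((x i).den : ℝ) := by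
        exact_mod_cast (Rat.num_div_den (x i)).symm
      rw [hc', h3]
      push_cast
      rw [h2]
      have : ((x i).den : ℝ) ≠ 0 := by exact_mod_cast (x i).den_ne_zero
      have : (c : ℝ) ≠ 0 := by exact_mod_cast hc0
      field_simp
  choose mm hmm using hm
  have hinj' : Function.Injective mm := by
    intro i j hij
    apply hinj
    have h1 := (hmm i).2
    rw [hij, (hmm j).2] at h1
    exact_mod_cast h1.symm
  have h := ai_of_measM (measM_EE J k mm hinj' (fun i => (hmm i).1) hq) hF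
  refine indep_of_spanF h (fun o => ?_) le_rfl
  cases o with
  | none =>
    simp only [Option.elim]
    refine of_pow (n := q) (by omega) ?_
    rw [← Real.exp_nat_mul]
    have h1 : (q : ℝ) * (-1 / q) = -1 := by field_simp
    rw [h1, Real.exp_neg]
    refine (clF _).inv_mem (subset_clF _ (Or.inr ⟨none, rfl⟩))
  | some p =>
    simp only [Option.elim]
    rw [(hmm p.2).2]
    exact subset_clF _ (Or.inr ⟨some p, rfl⟩)

/-- **Algebraic independence** of `e` and the numbers `E_l(x)`, `x` positive rational -/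
theorem EE_alg_QF (hF : SimLiouville F) (J : ℕ) {ι : Type*} (x : ι → ℚ) (hinj : Function.Injective x)
    (hpos : ∀ i, 0 < x i) :
    AlgebraicIndependent F (fun o : Option (Fin J × ι) => o.elim (Real.exp 1) (fun p => EE (p.1 + 1) (x p.2))) := by
  classical
  refine algebraicIndependent_of_finite_type fun t ht => ?_
  let s : Finset ι := ht.toFinset.biUnion fun o => o.elim ∅ (fun p => {p.2})
  have hs : ∀ p : Fin J × ι, some p ∈ t → p.2 ∈ s := by
    intro p hp
    refine Finset.mem_biUnion.2 ⟨some p, ht.mem_toFinset.2 hp, ?_⟩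
    simp
  let e := Fintype.equivFin s
  have h := EE_alg_finF hF J (k := Fintype.card s) (fun i => x (e.symm i)) (by
    intro i j hij
    have := hinj hij
    exact e.symm.injective (Subtype.ext this)) (fun i => hpos _)
  let f : t → Option (Fin J × Fin (Fintype.card s)) := fun o =>
    match o with
    | ⟨none, _⟩ => none
    | ⟨some p, hp⟩ => some (p.1, e ⟨p.2, hs p hp⟩)
  have hf : Function.Injective f := by
    rintro ⟨o, ho⟩ ⟨o', ho'⟩ hoo
    cases o with
    | none =>
      cases o' with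
      | none => rfl
      | some p' => exact absurd hoo (by simp [f])
    | some p =>
      cases o' with
      | none => exact absurd hoo (by simp [f])
      | some p' =>
        simp only [f, Option.some.injEq, Prod.mk.injEq] at hoo
        have h1 := e.injective hoo.2
        simp only [Subtype.mk.injEq] at h1
        have : p = p' := Prod.ext hoo.1 h1
        subst this
        rfl
  have h2 := h.comp f hf
  convert h2 using 1
  ext ⟨o, ho⟩
  cases o with
  | none => rfl
  | some p => simp [f]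

/-- the numbers `C_k(x)`, `k ≥ 1` -/
noncomputable def CC (k : ℕ) (x : ℝ) : ℝ := if k = 1 then EE 1 x else Zk k x

/-- the constants: Euler's constant and the zeta values -/
noncomputable def cst (k : ℕ) : ℝ := if k = 1 then Real.eulerMascheroniConstant else zt k

/-- the tails -/
noncomputable def RR (k : ℕ) (x : ℝ) : ℝ := cst k - CC k x

lemma AI_finF (hF : SimLiouville F) (J : ℕ) {ι : Type*} [Fintype ι] (x : ι → ℚ) (hinj : Function.Injective x)
    (hpos : ∀ i, 0 < x i) :
    AlgebraicIndependent F (fun o : Option (Fin J × ι) => o.elim (Real.exp 1) (fun p => CC (p.1 + 1) (x p.2))) := by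
  refine indep_of_spanF (EE_alg_QF hF J x hinj hpos) (fun o => ?_) le_rfl
  have he : Real.exp 1 ∈ clF ((F : Set ℝ) ∪ range fun o : Option (Fin J × ι) =>
      o.elim (Real.exp 1) (fun p => CC (p.1 + 1) (x p.2))) :=
    subset_clF _ (Or.inr ⟨none, rfl⟩)
  cases o with
  | none => exact he
  | some p =>
    have hJ := p.1.2
    refine mem_of_Zk (hpos p.2) he ?_ (J := J) (by omega) (fun k hk hk' => ?_) (p.1 + 1) (by omega)
    · refine subset_clF _ (Or.inr ⟨some (⟨0, by omega⟩, p.2), ?_⟩)
      simp [CC]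
    · refine subset_clF _ (Or.inr ⟨some (⟨k - 1, by omega⟩, p.2), ?_⟩)
      simp only [Option.elim, CC]
      rw [if_neg (by omega), Nat.sub_add_cancel (by omega)]

/-- **Algebraic independence** of `e` and the numbers `C_k(x)` -/
theorem AI_CF (hF : SimLiouville F) : AlgebraicIndependent F (fun o : Option {p : ℕ × ℚ // 1 ≤ p.1 ∧ 0 < p.2} =>
    o.elim (Real.exp 1) (fun p => CC p.1.1 p.1.2)) := by
  classical
  refine algebraicIndependent_of_finite_type fun t ht => ?_
  let s : Finset (ℕ × ℚ) := ht.toFinset.biUnion fun o => o.elim ∅ (fun p => {p.1})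
  have hs : ∀ p : {p : ℕ × ℚ // 1 ≤ p.1 ∧ 0 < p.2}, some p ∈ t → p.1 ∈ s := by
    intro p hp
    refine Finset.mem_biUnion.2 ⟨some p, ht.mem_toFinset.2 hp, ?_⟩
    simp
  let J : ℕ := s.sup Prod.fst
  let Y : Finset ℚ := (s.image Prod.snd).filter (fun x => 0 < x)
  have hJ : ∀ p : {p : ℕ × ℚ // 1 ≤ p.1 ∧ 0 < p.2}, some p ∈ t → p.1.1 ≤ J := fun p hp =>
    Finset.le_sup (f := Prod.fst) (hs p hp)
  have hY : ∀ p : {p : ℕ × ℚ // 1 ≤ p.1 ∧ 0 < p.2}, some p ∈ t → p.1.2 ∈ Y := fun p hp =>
    Finset.mem_filter.2 ⟨Finset.mem_image_of_mem _ (hs p hp), p.2.2⟩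
  have h := AI_finF hF J (ι := Y) (fun x => (x : ℚ)) Subtype.val_injective (fun x => (Finset.mem_filter.1 x.2).2)
  let f : t → Option (Fin J × Y) := fun o =>
    match o with
    | ⟨none, _⟩ => none
    | ⟨some p, hp⟩ => some (⟨p.1.1 - 1, by have := hJ p hp; have := p.2.1; omega⟩, ⟨p.1.2, hY p hp⟩)
  have hf : Function.Injective f := by
    rintro ⟨o, ho⟩ ⟨o', ho'⟩ hoo
    cases o with
    | none =>
      cases o' with
      | none => rfl
      | some p' => exact absurd hoo (by simp [f])
    | some p =>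
      cases o' with
      | none => exact absurd hoo (by simp [f])
      | some p' =>
        simp only [f, Option.some.injEq, Prod.mk.injEq, Fin.mk.injEq, Subtype.mk.injEq] at hoo
        have h1 := p.2.1
        have h2 := p'.2.1
        have : p = p' := Subtype.ext (Prod.ext (by omega) hoo.2)
        subst this
        rfl
  have h2 := h.comp f hf
  convert h2 using 1
  ext ⟨o, ho⟩
  cases o with
  | none => rfl
  | some p =>
    have h1 := p.2.1
    simp only [Option.elim, Function.comp_apply, f]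
    rw [Nat.sub_add_cancel h1]

lemma CC_mem {k : ℕ} {x : ℝ} {T : Set ℝ} (h1 : cst k ∈ clF T) (h2 : RR k x ∈ clF T) : CC k x ∈ clF T := by
  have : CC k x = cst k - RR k x := by rw [RR]; ring
  rw [this]
  exact (clF T).sub_mem h1 h2

lemma AI_subF (hF : SimLiouville F) (S : Finset (ℕ × ℚ)) (hS : ∀ p ∈ S, 1 ≤ p.1 ∧ 0 < p.2) :
    AlgebraicIndependent F (fun o : Option S => o.elim (Real.exp 1) (fun p => CC p.1.1 p.1.2)) := by
  let f : Option S → Option {p : ℕ × ℚ // 1 ≤ p.1 ∧ 0 < p.2} := Option.map fun p => ⟨p.1, hS p.1 p.2⟩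
  have hf : Function.Injective f := by
    refine Option.map_injective ?_
    intro p p' h
    simp only [Subtype.mk.injEq] at h
    exact Subtype.ext h
  have h2 := (AI_CF hF).comp f hf
  convert h2 using 1
  ext o
  cases o <;> simp [f]

/-- a lower bound for the transcendence degree -/
theorem trdegRF (hF : SimLiouville F) {r : ℕ} (y : Fin r → ℝ) (S : Finset (ℕ × ℚ))
    (hS : ∀ p ∈ S, 1 ≤ p.1 ∧ 0 < p.2 ∧ cst p.1 ∈ clF ((F : Set ℝ) ∪ ({Real.exp 1} ∪ range y))) :
    ((S.card + 1 : ℕ) : Cardinal) ≤ Algebra.trdeg F (IntermediateField.adjoin F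
      ({Real.exp 1} ∪ range y ∪ (fun p : ℕ × ℚ => RR p.1 p.2) '' (S : Set (ℕ × ℚ)))) := by
  have h := AI_subF hF S (fun p hp => ⟨(hS p hp).1, (hS p hp).2.1⟩)
  have h2 := trdeg_geF h (A := {Real.exp 1} ∪ range y ∪ (fun p : ℕ × ℚ => RR p.1 p.2) '' (S : Set (ℕ × ℚ))) ?_
  · refine le_trans (le_of_eq ?_) h2
    simp
  · intro o
    cases o with
    | none => exact subset_clF _ (Or.inr (Or.inl (Or.inl rfl)))
    | some p =>
      exact CC_mem (clF_mono (union_subset_union_right _ subset_union_left) (hS p.1 p.2).2.2)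
        (subset_clF _ (Or.inr (Or.inr ⟨p.1, p.2, rfl⟩)))

/-- counting -/
theorem countRF (hF : SimLiouville F) {r : ℕ} (y : Fin r → ℝ) (t : Finset (Fin r ⊕ (ℕ × ℚ)))
    (ht : ∀ i ∈ t, Sum.elim y (fun p => RR p.1 p.2) i ∈ clF ((F : Set ℝ) ∪ {Real.exp 1}))
    (ht' : ∀ p : ℕ × ℚ, Sum.inr p ∈ t → 1 ≤ p.1 ∧ 0 < p.2 ∧
      cst p.1 ∈ clF ((F : Set ℝ) ∪ ({Real.exp 1} ∪ range y))) : t.card ≤ r := by
  classical
  let S : Finset (ℕ × ℚ) := t.biUnion fun i => Sum.elim (fun _ => ∅) (fun p => {p}) i
  have hSm : ∀ p : ℕ × ℚ, Sum.inr p ∈ t → p ∈ S := fun p hp => Finset.mem_biUnion.2 ⟨_, hp, by simp⟩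
  have hSm' : ∀ p ∈ S, Sum.inr p ∈ t := by
    intro p hp
    obtain ⟨i, hi, hxi⟩ := Finset.mem_biUnion.1 hp
    rcases i with i | q
    · simp at hxi
    · simp at hxi
      subst hxi
      exact hi
  have hAI := AI_subF hF S (fun p hp => ⟨(ht' p (hSm' p hp)).1, (ht' p (hSm' p hp)).2.1⟩)
  let emb : Fin r ⊕ S → Fin r ⊕ (ℕ × ℚ) := Sum.map id Subtype.val
  have hemb : Function.Injective emb := Function.Injective.sumMap Function.injective_id Subtype.val_injective
  let S' : Finset (Fin r ⊕ S) := t.preimage emb hemb.injOn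
  have hS'card : S'.card = t.card := by
    rw [Finset.card_preimage, Finset.filter_true_of_mem]
    intro i hi
    rcases i with i | p
    · exact ⟨Sum.inl i, rfl⟩
    · exact ⟨Sum.inr ⟨p, hSm p hi⟩, rfl⟩
  have key := count_genF hAI (y := fun k => Sum.elim y (fun p => RR p.1 p.2) (emb k)) (a := Real.exp 1) S'
    (fun k hk => ht _ (Finset.mem_preimage.1 hk)) ?_
  · simp only [Fintype.card_option, Fintype.card_fin, Fintype.card_coe, Fintype.card_sum, hS'card] at key
    omega
  · intro o
    cases o with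
    | none => exact subset_clF _ (Or.inr (Or.inl rfl))
    | some p =>
      refine CC_mem (clF_mono ?_ (ht' p.1 (hSm' p.1 p.2)).2.2) (subset_clF _ (Or.inr (Or.inr ⟨Sum.inr p, rfl⟩)))
      refine union_subset_union_right _ (union_subset_union_right _ ?_)
      rintro _ ⟨i, rfl⟩
      exact ⟨Sum.inl i, rfl⟩

/-- if the constants are algebraic over `F(e)`, the tails are algebraically independent -/
theorem AI_RF (hF : SimLiouville F) (K : Set ℕ) (hK : ∀ k ∈ K, 1 ≤ k ∧ cst k ∈ clF ((F : Set ℝ) ∪ {Real.exp 1})) :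
    AlgebraicIndependent F (fun o : Option {p : ℕ × ℚ // p.1 ∈ K ∧ 0 < p.2} =>
      o.elim (Real.exp 1) (fun p => RR p.1.1 p.1.2)) := by
  classical
  refine algebraicIndependent_of_finite_type fun t ht => ?_
  let G : Set (Option {p : ℕ × ℚ // p.1 ∈ K ∧ 0 < p.2}) := insert none t
  have hG : G.Finite := ht.insert _
  have := hG.fintype
  have key : AlgebraicIndependent F (fun o : G => (o : Option {p : ℕ × ℚ // p.1 ∈ K ∧ 0 < p.2}).elim (Real.exp 1)
      (fun p => RR p.1.1 p.1.2)) := by
    let f : G → Option {p : ℕ × ℚ // 1 ≤ p.1 ∧ 0 < p.2} := fun o =>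
      (o : Option {p : ℕ × ℚ // p.1 ∈ K ∧ 0 < p.2}).map fun p => ⟨p.1, (hK _ p.2.1).1, p.2.2⟩
    have hf : Function.Injective f := by
      intro o o' hoo
      refine Subtype.ext (Option.map_injective ?_ hoo)
      intro a b hab
      simp only [Subtype.mk.injEq] at hab
      exact Subtype.ext hab
    refine indep_of_spanF ((AI_CF hF).comp f hf) (fun o => ?_) le_rfl
    have he : Real.exp 1 ∈ clF ((F : Set ℝ) ∪ range fun o : G =>
        (o : Option {p : ℕ × ℚ // p.1 ∈ K ∧ 0 < p.2}).elim (Real.exp 1)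
        (fun p => RR p.1.1 p.1.2)) := subset_clF _ (Or.inr ⟨⟨none, Or.inl rfl⟩, rfl⟩)
    obtain ⟨o, ho⟩ := o
    cases o with
    | none => exact he
    | some p =>
      refine CC_mem (clF_le ?_ (hK _ p.2.1).2) (subset_clF _ (Or.inr ⟨⟨some p, ho⟩, rfl⟩))
      rintro z (hz | hz)
      · exact subset_clF _ (Or.inl hz)
      · rw [mem_singleton_iff] at hz
        rw [hz]
        exact he
  have h2 := key.comp (fun o : t => (⟨o.1, Or.inr o.2⟩ : G)) (by
    intro a b hab
    have := congrArg Subtype.val hab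
    exact Subtype.ext this)
  exact h2

end Pool.Agent.V5helper44.SimZk
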