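import Pool.Agent.N743.SS.Multi
import Pool.Agent.Q163.LE.Meas

/-!
# Algebraic independence over simultaneously Liouville fields
-/

set_option autoImplicit false

namespace Pool.Agent.V5helper44.SimAI

open Pool.Agent.Q163.LE Pool.Agent.N743.SS

/-- numbers with a measure of algebraic independence are algebraically independent over every
simultaneously Liouville field -/
theorem ai_of_measM {ι : Type} {x : ι → ℝ} (hx : MeasM x) {F : Subfield ℝ} (hF : SimLiouville F) :
    AlgebraicIndependent F x := by
  classical
  rw [algebraicIndependent_iff]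
  intro p hp
  set s := p.support with hs
  obtain ⟨κ, c, hκ, hc, h⟩ := hx p.totalDegree
  let e : Fin s.card ≃ s := s.equivFin.symm
  have hlin : LinearIndependent F (fun i : Fin s.card => ((e i : ι →₀ ℕ).prod fun j n => x j ^ n)) := by
    refine lin_indep hF _ ⌈κ⌉₊ c hc fun z H hz hH hzH => ?_
    set P : MvPolynomial ι ℤ := ∑ i, MvPolynomial.monomial (e i : ι →₀ ℕ) (z i) with hP
    have hcoef : ∀ i, P.coeff (e i) = z i := by
      intro i
      rw [hP, MvPolynomial.coeff_sum, Finset.sum_eq_single i]
      · rw [MvPolynomial.coeff_monomial, if_pos rfl]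
      · intro j _ hj
        rw [MvPolynomial.coeff_monomial, if_neg]
        intro h0
        exact hj (e.injective (Subtype.ext h0))
      · intro h0
        exact absurd (Finset.mem_univ _) h0
    have hcoef' : ∀ m, m ∉ s → P.coeff m = 0 := by
      intro m hm
      rw [hP, MvPolynomial.coeff_sum]
      refine Finset.sum_eq_zero fun j _ => ?_
      rw [MvPolynomial.coeff_monomial, if_neg]
      intro h0
      exact hm (h0 ▸ (e j).2)
    have hP0 : P ≠ 0 := by
      intro h0
      apply hz
      funext i
      have := hcoef i
      rw [h0, MvPolynomial.coeff_zero] at this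
      exact this.symm
    have hdeg : P.totalDegree ≤ p.totalDegree := by
      have hsub : P.support ⊆ p.support := fun m hm => by
        by_contra hms
        exact MvPolynomial.mem_support_iff.1 hm (hcoef' m hms)
      exact Finset.sup_mono hsub
    have hmain := h P hP0 hdeg H (fun m => by
      by_cases hm : m ∈ s
      · have := hcoef (e.symm ⟨m, hm⟩)
        rw [e.apply_symm_apply] at this
        rw [this]
        exact hzH _
      · rw [hcoef' m hm, Int.cast_zero, abs_zero]
        linarith)
    have e1 : MvPolynomial.aeval x P = ∑ i, (z i : ℝ) * ((e i : ι →₀ ℕ).prod fun j n => x j ^ n) := by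
      rw [hP, map_sum]
      refine Finset.sum_congr rfl fun i _ => ?_
      rw [MvPolynomial.aeval_monomial]
      simp
    rw [e1] at hmain
    refine le_trans ?_ hmain
    rw [Real.rpow_neg (by linarith), ← div_eq_mul_inv]
    refine div_le_div_of_nonneg_left hc.le (by positivity) ?_
    rw [← Real.rpow_natCast]
    exact Real.rpow_le_rpow_of_exponent_le hH (Nat.le_ceil κ)
  rw [Fintype.linearIndependent_iff] at hlin
  have hall := hlin (fun i => p.coeff (e i)) (by
    rw [← hp]
    conv_rhs => rw [MvPolynomial.as_sum p, map_sum]
    rw [← Finset.sum_coe_sort s, ← Equiv.sum_comp e]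
    refine Finset.sum_congr rfl fun i _ => ?_
    rw [MvPolynomial.aeval_monomial, Algebra.smul_def])
  ext m
  rw [MvPolynomial.coeff_zero]
  by_cases hm : m ∈ s
  · have := hall (e.symm ⟨m, hm⟩)
    rw [e.apply_symm_apply] at this
    rw [this]
  · rw [MvPolynomial.notMem_support_iff.1 hm]

end Pool.Agent.V5helper44.SimAI
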